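import Mathlib
import Pool.Agent.Y682.Glob
import Pool.Agent.Y682.Lcl

/-!
# The local images of the descent by the isogeny `1 + i` on `y² = x³ + D x`
-/

set_option autoImplicit false
set_option linter.unusedSectionVars false

open NumberField IsDedekindDomain

namespace Pool.Agent.Y715.Z

open Pool.Agent.Y682 (S1 S2)

section

variable {L : Type} [Field L] (w : Valuation L (WithZero (Multiplicative ℤ)))

/-- the value of a member of the local image is a square if `D` is a unit -/
lemma even1 {D m : L} (hD : w D = 1) (h : S1 0 D m) : ∃ g, w m = g ^ 2 := by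
  rcases h with h | h | ⟨hm, y, hy⟩
  · exact ⟨1, by rw [h, map_one, one_pow]⟩
  · exact ⟨1, by rw [h, hD, one_pow]⟩
  · have hwm : w m ≠ 0 := (Valuation.ne_zero_iff _).2 hm
    rw [zero_mul, add_zero] at hy
    have e := congrArg w hy
    rw [map_pow, map_mul] at e
    rcases lt_trichotomy (w m) 1 with h1 | h1 | h1
    · refine ⟨w y, ?_⟩
      have h2 : w (m ^ 2 + D) = 1 := by
        rw [Valuation.map_add_eq_of_lt_right, hD]
        rw [hD, map_pow]
        exact pow_lt_one₀ zero_le h1 two_ne_zero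
      rw [h2, mul_one] at e
      exact e.symm
    · exact ⟨1, by rw [h1, one_pow]⟩
    · refine ⟨w y / w m, ?_⟩
      have h2 : w (m ^ 2 + D) = w m ^ 2 := by
        rw [Valuation.map_add_eq_of_lt_left, map_pow]
        rw [hD, map_pow]
        exact one_lt_pow₀ h1 two_ne_zero
      rw [h2] at e
      rw [div_pow, e]
      field_simp

/-- the local image at a prime dividing `D` exactly once -/
lemma cls1 (hens : ∀ t : L, w t < 1 → ∃ y : L, y ^ 2 = 1 + t) {D m : L} (hD0 : D ≠ 0)
    (hD : w D < 1) (hun : ∀ x : L, w x < 1 → w x ≤ w D) (h : S1 0 D m) :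
    ∃ c : L, c ≠ 0 ∧ (m = c ^ 2 ∨ m = D * c ^ 2) := by
  rcases h with h | h | ⟨hm, y, hy⟩
  · exact ⟨1, one_ne_zero, Or.inl (by rw [h, one_pow])⟩
  · exact ⟨1, one_ne_zero, Or.inr (by rw [h, one_pow, mul_one])⟩
  · have hwm : w m ≠ 0 := (Valuation.ne_zero_iff _).2 hm
    have hwD : w D ≠ 0 := (Valuation.ne_zero_iff _).2 hD0
    rw [zero_mul, add_zero] at hy
    have hne : ∀ r : L, r ^ 2 = 1 + D / m ^ 2 → w (D / m ^ 2) < 1 → r ≠ 0 := by
      rintro r hr h1 rfl
      have h2 : D / m ^ 2 = -1 := by linear_combination -hr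
      rw [h2, Valuation.map_neg, map_one] at h1
      exact lt_irrefl _ h1
    rcases le_or_gt 1 (w m) with h1 | h1
    · have ht : w (D / m ^ 2) < 1 := by
        rw [map_div₀, map_pow]
        rw [div_lt_iff₀ (pow_pos (zero_lt_iff.2 hwm) 2), one_mul]
        exact lt_of_lt_of_le hD (one_le_pow₀ h1)
      obtain ⟨r, hr⟩ := hens _ ht
      have hr0 := hne r hr ht
      have h2 : (m * r) ^ 2 = m ^ 2 + D := by
        rw [mul_pow, hr]
        field_simp
      rw [← h2] at hy
      have hmr : m * r ≠ 0 := mul_ne_zero hm hr0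
      have hy0 : y ≠ 0 := by
        rintro rfl
        rw [zero_pow two_ne_zero] at hy
        exact mul_ne_zero hm (pow_ne_zero 2 hmr) hy.symm
      refine ⟨y / (m * r), div_ne_zero hy0 hmr, Or.inl ?_⟩
      rw [div_pow, hy]
      field_simp
    · have h3 := hun m h1
      have ht : w (m ^ 2 / D) < 1 := by
        rw [map_div₀, map_pow, div_lt_iff₀ (zero_lt_iff.2 hwD), one_mul, sq]
        calc w m * w m ≤ w m * w D := mul_le_mul_right h3 _
          _ < 1 * w D := mul_lt_mul_of_pos_right h1 (zero_lt_iff.2 hwD)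
          _ = w D := one_mul _
      obtain ⟨r, hr⟩ := hens _ ht
      have hr0 : r ≠ 0 := by
        rintro rfl
        have h2 : m ^ 2 / D = -1 := by linear_combination -hr
        rw [h2, Valuation.map_neg, map_one] at ht
        exact lt_irrefl _ ht
      have h2 : D * r ^ 2 = m ^ 2 + D := by
        rw [hr]
        field_simp
        ring
      rw [← h2] at hy
      have hDr : D * r ≠ 0 := mul_ne_zero hD0 hr0
      have hy0 : y ≠ 0 := by
        rintro rfl
        rw [zero_pow two_ne_zero] at hy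
        exact mul_ne_zero hm (mul_ne_zero hD0 (pow_ne_zero 2 hr0)) hy.symm
      refine ⟨y / (D * r), div_ne_zero hy0 hDr, Or.inr ?_⟩
      rw [div_pow, hy]
      field_simp

/-- the second local condition for `y² = x³ + D x` is the first one if `-1` is a square -/
lemma S2_S1 [CharZero L] {D b i : L} (hi : i ^ 2 = -1)
    (h : ∃ z m : L, z ≠ 0 ∧ b * z ^ 2 = m ∧ S2 0 D m) :
    ∃ z m : L, z ≠ 0 ∧ b * z ^ 2 = m ∧ S1 0 D m := by
  have hi0 : i ≠ 0 := by
    rintro rfl
    rw [zero_pow two_ne_zero] at hi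
    have : (1 : L) = 0 := by linear_combination hi
    exact one_ne_zero this
  have h1i : (1 + i) ^ 2 = 2 * i := by linear_combination hi
  have h1i0 : 1 + i ≠ 0 := by
    intro h0
    rw [h0, zero_pow two_ne_zero] at h1i
    exact mul_ne_zero two_ne_zero hi0 h1i.symm
  obtain ⟨z, m, hz, hzm, hm⟩ := h
  rcases hm with hm | hm | ⟨hm, y, hy⟩
  · exact ⟨z, m, hz, hzm, Or.inl hm⟩
  · refine ⟨z / (2 * i), D, div_ne_zero hz (mul_ne_zero two_ne_zero hi0), ?_, Or.inr (Or.inl rfl)⟩
    rw [div_pow, ← mul_div_assoc, hzm, hm, mul_pow, hi]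
    ring
  · refine ⟨z / (1 + i), m / (2 * i), div_ne_zero hz h1i0, ?_, Or.inr (Or.inr ⟨?_, y / (2 - 2 * i), ?_⟩)⟩
    · rw [div_pow, ← mul_div_assoc, hzm, h1i]
    · exact div_ne_zero hm (mul_ne_zero two_ne_zero hi0)
    · have h8 : (2 - 2 * i) ^ 2 = -8 * i := by linear_combination 4 * hi
      rw [div_pow, hy, h8]
      field_simp
      linear_combination (-8 * m ^ 2) * hi
end

section

variable {K : Type} [Field K] [NumberField K] (v : HeightOneSpectrum (𝓞 K))

/-- squares in the completions at the odd primes -/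
lemma hens_odd (h2 : v.valuation K 2 = 1) (t : v.adicCompletion K)
    (ht : Pool.Agent.Y682.vv v t < 1) : ∃ y : v.adicCompletion K, y ^ 2 = 1 + t := by
  apply Pool.Agent.Y682.exists_sqrt
  have e : (4 : v.adicCompletion K) = algebraMap K _ (2 * 2) := by
    rw [map_mul, map_ofNat]; norm_num
  rw [e, Pool.Agent.Y682.vv_coe, map_mul, h2, one_mul]
  exact ht

end

end Pool.Agent.Y715.Z
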