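import Mathlib
import Pool.Agent.Y699.Lf
import Pool.Agent.Y715.Z.Loc

/-!
# From the completions of `ℚ(i)` to the Gaussian integers
-/

set_option autoImplicit false
set_option linter.unusedSectionVars false

open NumberField IsDedekindDomain

namespace Pool.Agent.Y715.Z

open Pool.Agent.Y682 (S1 S2 vv vv_coe)
open Pool.Agent.Y699
open H385 (ZI RQ im1 nrm)

lemma exp_sq {g : WithZero (Multiplicative ℤ)} (h : g ^ 2 = WithZero.exp (-1 : ℤ)) : False := by
  have h1 := congrArg WithZero.log h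
  rw [WithZero.log_pow, WithZero.log_exp] at h1
  have h2 : (2 : ℤ) * WithZero.log g = -1 := by
    rw [← h1]; simp
  omega

section

variable {K : Type} [Field K] [NumberField K] (e : ZI ≃+* 𝓞 K)

/-- the embedding of the Gaussian integers -/
noncomputable def em0 : ZI →+* K := (algebraMap (𝓞 K) K).comp (e : ZI →+* 𝓞 K)

lemma em0_apply (a : ZI) : em0 e a = algebraMap (𝓞 K) K (e a) := rfl

lemma em0_inj : Function.Injective (em0 e) :=
  (IsFractionRing.injective (𝓞 K) K).comp e.injective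

lemma em0_ne {a : ZI} (h : a ≠ 0) : em0 e a ≠ 0 := (map_ne_zero_iff _ (em0_inj e)).2 h

variable {z : ZI} (hz : Prime z)

lemma plc_mem (a : ZI) : e a ∈ (plc e hz).asIdeal ↔ z ∣ a := mem_iff e rfl a

lemma val_lt (a : ZI) : (plc e hz).valuation K (em0 e a) < 1 ↔ z ∣ a := by
  rw [em0_apply, HeightOneSpectrum.valuation_lt_one_iff_mem, plc_mem]

lemma val_le (a : ZI) : (plc e hz).valuation K (em0 e a) ≤ 1 :=
  HeightOneSpectrum.valuation_le_one _ _

lemma val_one {a : ZI} (h : ¬ z ∣ a) : (plc e hz).valuation K (em0 e a) = 1 :=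
  le_antisymm (val_le e hz a) (not_lt.1 (fun h' => h ((val_lt e hz a).1 h')))

lemma val_z : (plc e hz).valuation K (em0 e z) = WithZero.exp (-1 : ℤ) := by
  rw [em0_apply, HeightOneSpectrum.valuation_of_algebraMap]
  exact HeightOneSpectrum.intValuation_singleton _ ((map_ne_zero_iff e e.injective).2 hz.ne_zero) rfl

lemma val_sqf {d : ZI} (hd : Squarefree d) (h : z ∣ d) :
    (plc e hz).valuation K (em0 e d) = WithZero.exp (-1 : ℤ) := by
  obtain ⟨c, rfl⟩ := h
  have hc : ¬ z ∣ c := by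
    rintro ⟨c', rfl⟩
    exact hz.not_isUnit (hd z ⟨c', by ring⟩)
  rw [map_mul, map_mul, val_one e hz hc, mul_one, val_z e hz]

/-- the completion -/
noncomputable abbrev ph : K →+* (plc e hz : HeightOneSpectrum (𝓞 K)).adicCompletion K :=
  algebraMap K ((plc e hz).adicCompletion K)

/-- evenness outside of `D` -/
lemma not_dvd_of_loc {D d : ZI} (hD : ¬ z ∣ D) (hd : Squarefree d) {b w : K} (hw : w ≠ 0)
    (hb : b = em0 e d * w ^ 2)
    (h : ∃ y m : (plc e hz).adicCompletion K, y ≠ 0 ∧ ph e hz b * y ^ 2 = m ∧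
      S1 0 (ph e hz (em0 e D)) m) : ¬ z ∣ d := by
  intro hzd
  obtain ⟨y, m, hy, hym, hm⟩ := h
  have hwD : vv (plc e hz) (ph e hz (em0 e D)) = 1 := by
    rw [vv_coe, val_one e hz hD]
  obtain ⟨g, hg⟩ := even1 _ hwD hm
  have hvy : vv (plc e hz) y ≠ 0 := (Valuation.ne_zero_iff _).2 hy
  have hvw : (plc e hz).valuation K w ≠ 0 := (Valuation.ne_zero_iff _).2 hw
  rw [← hym, map_mul, vv_coe, map_pow, hb, map_mul, val_sqf e hz hd hzd, map_pow] at hg
  apply exp_sq (g := g / ((plc e hz).valuation K w * vv (plc e hz) y))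
  rw [div_pow, ← hg, mul_pow]
  field_simp

/-- squares and residues -/
lemma qr_of_sqrt (hP : PP z) {a : ZI} (ha : ¬ z ∣ a) {x : (plc e hz).adicCompletion K}
    (hx : x ^ 2 = ph e hz (em0 e a)) : qr z a = 1 := by
  have hwx : vv (plc e hz) x = 1 := by
    have h1 := congrArg (vv (plc e hz)) hx
    rw [map_pow, vv_coe, val_one e hz ha] at h1
    rcases lt_trichotomy (vv (plc e hz) x) 1 with h | h | h
    · exact absurd h1 (ne_of_lt (pow_lt_one₀ zero_le h two_ne_zero))
    · exact h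
    · exact absurd h1 (ne_of_gt (one_lt_pow₀ h two_ne_zero))
  obtain ⟨k, hk⟩ := Pool.Agent.Y682.exists_approx (plc e hz) x 1 one_ne_zero
  have hwk : vv (plc e hz) (ph e hz k) ≤ 1 := by
    have : ph e hz k = (ph e hz k - x) + x := by ring
    rw [this]
    exact (Valuation.map_add _ _ _).trans (max_le hk.le hwx.le)
  have hwk' : (plc e hz).valuation K k ≤ 1 := by rwa [vv_coe] at hwk
  obtain ⟨c', hc'⟩ := HeightOneSpectrum.exists_valuation_sub_lt_of_integer (plc e hz) hwk' 1
  obtain ⟨c, rfl⟩ := e.surjective c'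
  have hc1 : vv (plc e hz) (ph e hz (em0 e c) - x) < 1 := by
    have h2 : ph e hz (em0 e c) - x = ph e hz (em0 e c - k) + (ph e hz k - x) := by
      rw [map_sub]; ring
    rw [h2]
    refine lt_of_le_of_lt (Valuation.map_add _ _ _) (max_lt ?_ hk)
    rw [vv_coe]
    exact hc'
  have hwc : vv (plc e hz) (ph e hz (em0 e c) + x) ≤ 1 := by
    refine (Valuation.map_add _ _ _).trans (max_le ?_ hwx.le)
    rw [vv_coe]
    exact val_le e hz c
  have h3 : (plc e hz).valuation K (em0 e (a - c ^ 2)) < 1 := by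
    rw [← vv_coe]
    have h4 : ph e hz (em0 e (a - c ^ 2)) =
        -((ph e hz (em0 e c) - x) * (ph e hz (em0 e c) + x)) := by
      rw [map_sub, map_sub, ← hx, map_pow, map_pow]
      ring
    rw [h4, Valuation.map_neg, map_mul]
    exact mul_lt_one_of_lt_of_le hc1 hwc
  unfold qr
  rw [if_neg ha, if_pos ⟨c, (val_lt e hz _).1 h3⟩]

/-- the local condition at a prime dividing `D` -/
lemma loc_bad (hP : PP z) {D d d' D' : ZI} (h2 : ¬ z ∣ 2) (hDsq : Squarefree D) (hzD : z ∣ D)
    {b w : K} (hw : w ≠ 0) (hb : b = em0 e d * w ^ 2)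
    (h : ∃ y m : (plc e hz).adicCompletion K, y ≠ 0 ∧ ph e hz b * y ^ 2 = m ∧
      S1 0 (ph e hz (em0 e D)) m) :
    (¬ z ∣ d → qr z d = 1) ∧ (Squarefree d → z ∣ d → d * d' = D * D' ^ 2 → ¬ z ∣ d' → qr z d' = 1) := by
  obtain ⟨y, m, hy, hym, hm⟩ := h
  have hD0 : D ≠ 0 := hDsq.ne_zero
  have h2' : (plc e hz).valuation K 2 = 1 := by
    have := val_one e hz h2
    rwa [map_ofNat] at this
  have hwD : vv (plc e hz) (ph e hz (em0 e D)) = WithZero.exp (-1 : ℤ) := by
    rw [vv_coe, val_sqf e hz hDsq hzD]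
  have hlt : WithZero.exp (-1 : ℤ) < (1 : WithZero (Multiplicative ℤ)) := by
    rw [← WithZero.exp_zero, WithZero.exp_lt_exp]; norm_num
  have hphD : ph e hz (em0 e D) ≠ 0 := (map_ne_zero _).2 (em0_ne e hD0)
  obtain ⟨c, hc, hmc⟩ := cls1 (vv (plc e hz)) (fun t ht => hens_odd (plc e hz) h2' t ht)
    hphD (by rw [hwD]; exact hlt) (fun x hx => by
      rw [hwD]
      by_cases hx0 : vv (plc e hz) x = 0
      · rw [hx0]; exact zero_le
      · rw [← WithZero.exp_log hx0] at hx ⊢
        rw [← WithZero.exp_zero, WithZero.exp_lt_exp] at hx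
        rw [WithZero.exp_le_exp]
        omega) hm
  have hpw : ph e hz w ≠ 0 := (map_ne_zero _).2 hw
  have hvy : vv (plc e hz) y ≠ 0 := (Valuation.ne_zero_iff _).2 hy
  have hvc : vv (plc e hz) c ≠ 0 := (Valuation.ne_zero_iff _).2 hc
  have hvw : vv (plc e hz) (ph e hz w) ≠ 0 := (Valuation.ne_zero_iff _).2 hpw
  have hm2 : ph e hz (em0 e d) * (ph e hz w * y) ^ 2 = m := by
    rw [← hym, hb, map_mul, map_pow]; ring
  constructor
  · intro hzd
    rcases hmc with h1 | h1
    · apply qr_of_sqrt e hz hP hzd (x := c / (ph e hz w * y))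
      rw [div_pow, ← h1, ← hm2]
      field_simp
    · exfalso
      have h3 := congrArg (vv (plc e hz)) (hm2.trans h1)
      rw [map_mul, map_mul, vv_coe, val_one e hz hzd, one_mul, map_pow, map_pow, map_mul, hwD] at h3
      apply exp_sq (g := vv (plc e hz) (ph e hz w) * vv (plc e hz) y / vv (plc e hz) c)
      rw [div_pow, h3]
      field_simp
  · intro hd hzd hdd hzd'
    rcases hmc with h1 | h1
    · exfalso
      have h3 := congrArg (vv (plc e hz)) (hm2.trans h1)
      rw [map_mul, vv_coe, val_sqf e hz hd hzd, map_pow, map_pow, map_mul] at h3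
      apply exp_sq (g := vv (plc e hz) c / (vv (plc e hz) (ph e hz w) * vv (plc e hz) y))
      rw [div_pow, ← h3]
      field_simp
    · have hpd : ph e hz (em0 e d) ≠ 0 := (map_ne_zero _).2 (em0_ne e hd.ne_zero)
      apply qr_of_sqrt e hz hP hzd'
        (x := ph e hz (em0 e D') * (ph e hz w * y) / c)
      have h4 : ph e hz (em0 e d) * ph e hz (em0 e d') =
          ph e hz (em0 e D) * ph e hz (em0 e D') ^ 2 := by
        rw [← map_mul, ← map_mul, hdd, map_mul, map_mul, map_pow, map_pow]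
      have h5 : ph e hz (em0 e d) * (ph e hz w * y) ^ 2 = ph e hz (em0 e D) * c ^ 2 := hm2.trans h1
      rw [div_pow, mul_pow]
      rw [div_eq_iff (pow_ne_zero 2 hc)]
      apply mul_left_cancel₀ (mul_ne_zero hphD hpd)
      linear_combination (ph e hz (em0 e D) * ph e hz (em0 e D') ^ 2) * h5 -
        (ph e hz (em0 e D) * c ^ 2) * h4

end

end Pool.Agent.Y715.Z
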