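import Mathlib
import Pool.Agent.Y699.Qk
import Pool.Agent.Y682.ZS
import Pool.Agent.Y715.Z.Glo

/-!
# The 2-torsion of Sha of `y² = x³ + D x` over `ℚ(i)`
-/

set_option autoImplicit false
set_option linter.unusedSectionVars false

open NumberField IsDedekindDomain

namespace Pool.Agent.Y715.Z

open Pool.Agent.Y682 (S1 S2 vv vv_coe IsT Zc Zc_card Zc_lower LL1 LL2 Sq quot_eq)
open Pool.Agent.Y699
open H385 (ZI RQ im1 nrm)
open Pool.Agent.W164.RC (two2 prim_iff_dvd unit_norm unit_cases)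

section comb

variable {ι : Type} [DecidableEq ι] [Fintype ι] {pr : ι → ZI}

/-- the combinatorial end of the descent -/
theorem ends (hp : PF pr) {V : Finset ι} (hw : ∑ i ∈ V, wt pr i = 1)
    (hker : ∀ z : ι → ZMod 2, (∀ v ∈ V, ∑ u ∈ V, em pr u v * (z u + z v) = 0) →
      ∀ u ∈ V, ∀ v ∈ V, z u = z v) {u : ZI} {S : Finset ι} (hu : u.norm = 1) (hSV : S ⊆ V)
    (hloc0 : ∀ j ∈ V, (j ∉ S → qr (pr j) u * qr (pr j) (DD pr S) = 1) ∧
      (j ∈ S → qr (pr j) u * qr (pr j) (DD pr (V \ S)) = 1)) :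
    (∃ u0 : ZI, u = u0 ^ 2) ∧ (S = ∅ ∨ S = V) := by
  classical
  set z : ι → ZMod 2 := fun i => if i ∈ S then 1 else 0 with hz
  have hloc : ∀ v ∈ V, ∑ i ∈ V, em pr i v * (z i + z v) = ue u * wt pr v := by
    intro v hv
    obtain ⟨h1, h2⟩ := hloc0 v hv
    have hsum : ∀ a b : ZMod 2, a + b = 0 → b = a := by decide
    by_cases hvS : v ∈ S
    · have h3 := h2 hvS
      rw [qr_unit_sg hp v hu, qr_DD_sg hp (V \ S) (fun h => (Finset.mem_sdiff.1 h).2 hvS), ← sg_add] at h3
      have h4 := hsum _ _ (sg_eq_one h3)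
      rw [← h4, ← Finset.sum_sdiff hSV]
      have h5 : ∑ i ∈ S, em pr i v * (z i + z v) = 0 := by
        refine Finset.sum_eq_zero fun i hi => ?_
        rw [hz]
        simp only [if_pos hi, if_pos hvS]
        have : (1 : ZMod 2) + 1 = 0 := by decide
        rw [this, mul_zero]
      rw [h5, add_zero]
      refine Finset.sum_congr rfl fun i hi => ?_
      rw [hz]
      simp only [if_neg (Finset.mem_sdiff.1 hi).2, if_pos hvS, zero_add, mul_one]
    · have h3 := h1 hvS
      rw [qr_unit_sg hp v hu, qr_DD_sg hp S hvS, ← sg_add] at h3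
      have h4 := hsum _ _ (sg_eq_one h3)
      rw [← h4, ← Finset.sum_sdiff hSV]
      have h5 : ∑ i ∈ V \ S, em pr i v * (z i + z v) = 0 := by
        refine Finset.sum_eq_zero fun i hi => ?_
        rw [hz]
        simp only [if_neg (Finset.mem_sdiff.1 hi).2, if_neg hvS, zero_add, mul_zero]
      rw [h5, zero_add]
      refine Finset.sum_congr rfl fun i hi => ?_
      rw [hz]
      simp only [if_pos hi, if_neg hvS, add_zero, mul_one]
  have hue : ue u = 0 := by
    have h1 : ∑ v ∈ V, ∑ i ∈ V, em pr i v * (z i + z v) = ue u := by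
      rw [Finset.sum_congr rfl hloc, ← Finset.mul_sum, hw, mul_one]
    rw [← h1]
    have h2 : ∑ v ∈ V, ∑ i ∈ V, em pr i v * (z i + z v) =
        ∑ v ∈ V, ∑ i ∈ V, em pr i v * z i + ∑ v ∈ V, ∑ i ∈ V, em pr i v * z v := by
      rw [← Finset.sum_add_distrib]
      refine Finset.sum_congr rfl fun v _ => ?_
      rw [← Finset.sum_add_distrib]
      refine Finset.sum_congr rfl fun i _ => by ring
    rw [h2]
    have h3 : ∑ v ∈ V, ∑ i ∈ V, em pr i v * z v = ∑ v ∈ V, ∑ i ∈ V, em pr i v * z i := by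
      rw [Finset.sum_comm]
      refine Finset.sum_congr rfl fun v _ => Finset.sum_congr rfl fun i _ => by rw [em_symm hp]
    rw [h3]
    have : ∀ a : ZMod 2, a + a = 0 := by decide
    exact this _
  have hker' := hker z (fun v hv => by rw [hloc v hv, hue, zero_mul])
  refine ⟨?_, ?_⟩
  · rcases unit_cases hu with h | h | h | h
    · exact ⟨1, by rw [h]; ring⟩
    · exfalso
      rw [h] at hue
      revert hue
      unfold ue
      rw [if_neg (by decide)]
      decide
    · exact ⟨im1, h⟩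
    · exfalso
      rw [h] at hue
      revert hue
      unfold ue
      rw [if_neg (by decide)]
      decide
  · by_cases hS : S = ∅
    · left; exact hS
    · right
      obtain ⟨s, hs⟩ := Finset.nonempty_iff_ne_empty.2 hS
      apply Finset.Subset.antisymm hSV
      intro i hi
      have h1 := hker' i hi s (hSV hs)
      rw [hz] at h1
      simp only [if_pos hs] at h1
      by_contra hiS
      rw [if_neg hiS] at h1
      exact absurd h1 (by decide)

end comb

section

variable {K : Type} [Field K] [NumberField K] (e : ZI ≃+* 𝓞 K)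

/-- squarefree representatives -/
lemma exists_sqf {b : K} (hb : b ≠ 0) :
    ∃ (d : ZI) (w : K), Squarefree d ∧ w ≠ 0 ∧ b = em0 e d * w ^ 2 := by
  obtain ⟨a', m', hm', hxa⟩ := IsFractionRing.div_surjective (A := 𝓞 K) b
  obtain ⟨a, rfl⟩ := e.surjective a'
  obtain ⟨m, rfl⟩ := e.surjective m'
  have hxa' : em0 e a / em0 e m = b := hxa
  have hm0 : m ≠ 0 := by
    rintro rfl
    rw [map_zero] at hm'
    exact nonZeroDivisors.ne_zero hm' rfl
  have ha0 : a ≠ 0 := by
    rintro rfl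
    apply hb
    rw [← hxa', map_zero, zero_div]
  obtain ⟨d, h, hdh, hd⟩ := sqf_decomp _ (a * m) (mul_ne_zero ha0 hm0) le_rfl
  have hh0 : h ≠ 0 := by
    rintro rfl
    apply mul_ne_zero ha0 hm0
    rw [hdh]; ring
  have hAm := em0_ne e hm0
  have hAh := em0_ne e hh0
  refine ⟨d, em0 e h / em0 e m, hd, div_ne_zero hAh hAm, ?_⟩
  have h1 := congrArg (em0 e) hdh
  rw [map_mul, map_mul, map_pow] at h1
  rw [← hxa']
  field_simp
  linear_combination h1

/-- **the Selmer group** -/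
theorem sel {D : ZI} (hg : Good4 D) {b : K} (hb : b ≠ 0)
    (h : ∀ v : HeightOneSpectrum (𝓞 K), ∃ y m : v.adicCompletion K, y ≠ 0 ∧
      algebraMap K (v.adicCompletion K) b * y ^ 2 = m ∧
        S1 0 (algebraMap K (v.adicCompletion K) (em0 e D)) m) :
    ∃ c : K, b = c ^ 2 ∨ b = em0 e D * c ^ 2 := by
  classical
  obtain ⟨d, w, hd, hw, hbd⟩ := exists_sqf e hb
  have hD0 := hg.ps.ne
  have hDsq := hg.ps.sqf
  have hp := fam_PF hD0
  -- the primes of `d`
  have hprime : ∀ ρ : ZI, Prime ρ → ρ ∣ d → ρ ∣ D := by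
    intro ρ hρ hρd
    by_contra hρD
    exact not_dvd_of_loc e hρ hρD hd hw hbd (h (plc e hρ)) hρd
  set V : Finset {π : ZI // π ∈ PD D} := Finset.univ with hV
  set S := V.filter (fun i => fam D i ∣ d) with hS
  have hSV : S ⊆ V := Finset.filter_subset _ _
  have hDV : DD (fam D) V = D := hg.ps.DD
  have hSd : DD (fam D) S ∣ d := by
    unfold DD
    refine Finset.prod_dvd_of_coprime ?_ ?_
    · intro i _ j _ hij
      exact (hp.pp i).cop (hp.pp j) fun h => hij (hp.inj h)
    · intro i hi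
      exact (Finset.mem_filter.1 hi).2
  obtain ⟨u, hu⟩ := hSd
  have huu : IsUnit u := by
    by_contra hnu
    have hu0 : u ≠ 0 := by
      rintro rfl
      exact hd.ne_zero (by rw [hu, mul_zero])
    obtain ⟨ρ, hρ, hρu⟩ := WfDvdMonoid.exists_irreducible_factor hnu hu0
    have hρ' : Prime ρ := irreducible_iff_prime.1 hρ
    have h1 : ρ ∣ d := by rw [hu]; exact hρu.mul_left _
    have h2 := hprime ρ hρ' h1
    rw [← hDV] at h2
    unfold DD at h2
    obtain ⟨i, hi, hρi⟩ := (hρ'.dvd_finsetProd_iff _).1 h2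
    have h3 : fam D i ∣ ρ := by
      obtain ⟨c, hc⟩ := hρi
      rcases (hp.pp i).pr.irreducible.isUnit_or_isUnit hc with h4 | h4
      · exact absurd h4 hρ'.not_isUnit
      · obtain ⟨c', hc'⟩ := h4.exists_right_inv
        exact ⟨c', by rw [hc, mul_assoc, hc', mul_one]⟩
    have h4 : i ∈ S := Finset.mem_filter.2 ⟨hi, h3.trans h1⟩
    have h5 : fam D i * fam D i ∣ d := by
      rw [hu]
      refine mul_dvd_mul ?_ (h3.trans hρu)
      unfold DD
      exact Finset.dvd_prod_of_mem _ h4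
    exact (hp.pp i).pr.not_isUnit (hd _ h5)
  have hun : u.norm = 1 := by
    obtain ⟨e', rfl⟩ := huu
    exact unit_norm e'
  have hDS : DD (fam D) V = DD (fam D) S * DD (fam D) (V \ S) := by
    unfold DD
    rw [mul_comm]
    exact (Finset.prod_sdiff hSV).symm
  have hnd : ∀ (T : Finset {π : ZI // π ∈ PD D}) (j : {π : ZI // π ∈ PD D}), j ∉ T →
      ¬ fam D j ∣ DD (fam D) T := by
    intro T j hT h
    unfold DD at h
    obtain ⟨i, hi, hji⟩ := ((hp.pp j).pr.dvd_finsetProd_iff _).1 h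
    exact not_dvd_of_ne hp (fun h' => hT (by rw [h']; exact hi)) hji
  -- the local conditions
  have hloc : ∀ j ∈ V, (j ∉ S → qr (fam D j) u * qr (fam D j) (DD (fam D) S) = 1) ∧
      (j ∈ S → qr (fam D j) u * qr (fam D j) (DD (fam D) (V \ S)) = 1) := by
    intro j hj
    have hP := hp.pp j
    have hjD : fam D j ∣ D := (Finset.dvd_prod_of_mem (fam D) hj).trans (dvd_of_eq hDV)
    obtain ⟨h1, h2⟩ := loc_bad (d := d) (d' := u * DD (fam D) (V \ S)) (D' := u) e hP.pr hP
      (not_dvd_two hP) hDsq hjD hw hbd (h (plc e hP.pr))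
    constructor
    · intro hjS
      have h3 := h1 (fun h' => hjS (Finset.mem_filter.2 ⟨hj, h'⟩))
      rw [hu, qr_mul hP] at h3
      rw [mul_comm]
      exact h3
    · intro hjS
      have h3 := h2 hd (Finset.mem_filter.1 hjS).2 (by
        have h5 : D = DD (fam D) S * DD (fam D) (V \ S) := hDV.symm.trans hDS
        have h6 : d * (u * DD (fam D) (V \ S)) =
            (DD (fam D) S * DD (fam D) (V \ S)) * u ^ 2 := by rw [hu]; ring
        exact h6.trans (congrArg (fun t => t * u ^ 2) h5.symm)) (by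
        intro h'
        rcases hP.pr.dvd_or_dvd h' with h4 | h4
        · exact not_dvd_unit hP hun h4
        · exact hnd _ _ (fun h5 => (Finset.mem_sdiff.1 h5).2 hjS) h4)
      rw [qr_mul hP] at h3
      exact h3
  obtain ⟨⟨u0, hu0⟩, hSS⟩ := ends hp (wt_sum hg.ps hg.good.five) (ker_of_good hg.good) hun hSV hloc
  refine ⟨em0 e u0 * w, ?_⟩
  rcases hSS with h1 | h1
  · left
    have h2 : DD (fam D) S = 1 := by rw [h1]; unfold DD; rw [Finset.prod_empty]
    rw [hbd, hu, h2, one_mul, hu0, map_pow]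
    ring
  · right
    rw [hbd, hu, h1, hDV, hu0, map_mul, map_pow]
    ring

lemma im1_sq : (em0 e im1 : K) ^ 2 = -1 := by
  rw [← map_pow]
  have : (im1 ^ 2 : ZI) = -1 := by decide
  rw [this, map_neg, map_one]

/-- there is at most one element of Sha killed by two -/
theorem sha_two {D : ZI} (hg : Good4 D) {W : WeierstrassCurve K} (hT : IsT W 0 (em0 e D))
    (x : Pool.Agent.TH841.NF.D.Sha W) (hx : 2 • x = 0) : x = 0 := by
  classical
  have hD0 : em0 e D ≠ 0 := em0_ne e hg.ps.ne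
  let U : Set (Kˣ ⧸ Sq K) := {(1 : Kˣ ⧸ Sq K), ((Units.mk0 (em0 e D) hD0 : Kˣ) : Kˣ ⧸ Sq K)}
  have hUf : U.Finite := Set.toFinite U
  have hfin : Finite U := hUf.to_subtype
  have hU2 : Nat.card U ≤ 2 := by
    have h1 : U.ncard ≤ 2 := by
      refine (Set.ncard_insert_le _ _).trans ?_
      rw [Set.ncard_singleton]
    exact h1
  have key : ∀ b : Kˣ, (∃ c : K, (b : K) = c ^ 2 ∨ (b : K) = em0 e D * c ^ 2) →
      (b : Kˣ ⧸ Sq K) ∈ U := by
    rintro b ⟨c, hc⟩
    have hc0 : c ≠ 0 := by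
      rintro rfl
      rcases hc with hc | hc
      · rw [zero_pow two_ne_zero] at hc; exact b.ne_zero hc
      · rw [zero_pow two_ne_zero, mul_zero] at hc; exact b.ne_zero hc
    rcases hc with hc | hc
    · left
      have h1 : (1 : Kˣ ⧸ Sq K) = ((1 : Kˣ) : Kˣ ⧸ Sq K) := rfl
      rw [h1, eq_comm, quot_eq]
      refine ⟨Units.mk0 c hc0, Units.ext ?_⟩
      rw [Units.val_mul, Units.val_one, one_mul, Units.val_pow_eq_pow_val, Units.val_mk0, hc]
    · right
      show (b : Kˣ ⧸ Sq K) = ((Units.mk0 (em0 e D) hD0 : Kˣ) : Kˣ ⧸ Sq K)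
      rw [eq_comm, quot_eq]
      refine ⟨Units.mk0 c hc0, Units.ext ?_⟩
      rw [Units.val_mul, Units.val_pow_eq_pow_val, Units.val_mk0, Units.val_mk0, hc]
  have H1 : ∀ b : Kˣ, LL1 (0 : K) (em0 e D) (b : K) → (b : Kˣ ⧸ Sq K) ∈ U := by
    intro b hb
    apply key
    apply sel e hg b.ne_zero
    intro v
    have := hb.1 v
    rwa [map_zero] at this
  have H2 : ∀ b : Kˣ, LL2 (0 : K) (em0 e D) (b : K) → (b : Kˣ ⧸ Sq K) ∈ U := by
    intro b hb
    apply key
    apply sel e hg b.ne_zero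
    intro v
    have := Pool.Agent.Y682.charZero_adic v
    have h1 := hb.1 v
    rw [map_zero] at h1
    refine S2_S1 (i := algebraMap K (v.adicCompletion K) (em0 e im1)) ?_ h1
    rw [← map_pow, im1_sq, map_neg, map_one]
  obtain ⟨hf, hc⟩ := Zc_card hT (U := U) (V := U) (Or.inl rfl) H1 H2
  obtain ⟨h3, h4⟩ := Zc_lower hT
  have h5 : Nat.card {x : Pool.Agent.TH841.NF.D.Sha W // 2 • x = 0} ≤ 1 := by
    have h6 : Nat.card (Zc W) ≤ 4 := hc.trans (by nlinarith)
    have h7 : 1 ≤ 2 ^ (Module.finrank ℤ (Pool.Agent.Y682.MP W)) := Nat.one_le_two_pow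
    have h8 := h4.trans h6
    nlinarith
  have h6 : Subsingleton {x : Pool.Agent.TH841.NF.D.Sha W // 2 • x = 0} :=
    Finite.card_le_one_iff_subsingleton.1 h5
  have h7 := @Subsingleton.elim _ h6 ⟨x, hx⟩ ⟨0, smul_zero _⟩
  exact congrArg Subtype.val h7

/-- the 2-primary part of Sha is trivial -/
theorem sha_pow {D : ZI} (hg : Good4 D) {W : WeierstrassCurve K} (hT : IsT W 0 (em0 e D))
    (n : ℕ) (x : Pool.Agent.TH841.NF.D.Sha W) (hx : 2 ^ n • x = 0) : x = 0 := by
  induction n with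
  | zero => rwa [pow_zero, one_smul] at hx
  | succ n ih =>
    apply ih
    apply sha_two e hg hT
    rw [smul_smul, mul_comm, ← pow_succ]
    exact hx

end

end Pool.Agent.Y715.Z
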